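import Pool.Agent.Helper72.MK.GoalsT

/-!
# MK, packet HEX: area of a symmetric convex set with given points
-/

set_option autoImplicit false

namespace Pool.Agent.Helper7.MK

open MeasureTheory Set Pool.Agent.Helper72.MK
open scoped ENNReal

theorem sector (hQ : QUADStmt) (L : Set (Fin 2 → ℝ)) (hL : Convex ℝ L)
    (h0 : (0 : Fin 2 → ℝ) ∈ L) (a b c d m r s : ℝ) (hdet : |a * d - b * c| = 1)
    (S : Set (Fin 2 → ℝ))
    (hS : ∀ u v : ℝ, (![a * u + b * v, c * u + d * v] : Fin 2 → ℝ) ∈ S ↔ 0 < u ∧ 0 < v)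
    (hm : 0 ≤ m) (hr : 0 ≤ r) (hs : 0 ≤ s) (hrs : r + s = 1)
    (h1 : (![a * m, c * m] : Fin 2 → ℝ) ∈ L) (h2 : (![b * m, d * m] : Fin 2 → ℝ) ∈ L)
    (h3 : (![a * r + b * s, c * r + d * s] : Fin 2 → ℝ) ∈ L) :
    ENNReal.ofReal (m / 2) ≤ volume (S ∩ L) := by
  let f : (Fin 2 → ℝ) →ₗ[ℝ] (Fin 2 → ℝ) := Matrix.toLin' !![a, b; c, d]
  have hf : ∀ x, f x = ![a * x 0 + b * x 1, c * x 0 + d * x 1] := by
    intro x
    ext i
    fin_cases i <;> simp [f, Matrix.toLin'_apply, Matrix.mulVec, dotProduct, Fin.sum_univ_two]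
  have hfd : LinearMap.det f = a * d - b * c := by
    simp only [f]
    rw [LinearMap.det_toLin', Matrix.det_fin_two_of]
  have hne : LinearMap.det f ≠ 0 := by
    rw [hfd]
    intro h
    rw [h] at hdet
    simp at hdet
  have hvol : volume (f ⁻¹' (S ∩ L)) = volume (S ∩ L) := by
    rw [Measure.addHaar_preimage_linearMap _ hne, hfd, abs_inv, hdet]
    simp
  have hset : f ⁻¹' (S ∩ L) = (f ⁻¹' L) ∩ {x | 0 < x 0 ∧ 0 < x 1} := by
    ext x
    simp only [mem_preimage, mem_inter_iff, mem_ofPred_eq]
    rw [hf, hS]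
    tauto
  rw [← hvol, hset]
  have hq := hQ (f ⁻¹' L) (hL.linear_preimage f) (by simpa using h0) m m r s hm hm hr hs
    (by
      rw [mem_preimage, hf]
      simpa using h1)
    (by
      rw [mem_preimage, hf]
      simpa using h2)
    (by
      rw [mem_preimage, hf]
      simpa using h3)
  have he : (m * s + m * r) / 2 = m / 2 := by
    rw [← mul_add, add_comm s r, hrs, mul_one]
  rwa [he] at hq

/-- The six sectors. -/
def Sec (k : Fin 6) : Set (Fin 2 → ℝ) :=
  match k with
  | 0 => {x | 0 < x 0 ∧ 0 < x 1}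
  | 1 => {x | x 0 < 0 ∧ - x 0 < x 1}
  | 2 => {x | 0 < x 1 ∧ x 1 < - x 0}
  | 3 => {x | x 0 < 0 ∧ x 1 < 0}
  | 4 => {x | 0 < x 0 ∧ x 1 < - x 0}
  | 5 => {x | x 1 < 0 ∧ - x 0 < x 1}

theorem sec_meas (k : Fin 6) : MeasurableSet (Sec k) := by
  have m0 : Measurable fun x : Fin 2 → ℝ => x 0 := measurable_pi_apply 0
  have m1 : Measurable fun x : Fin 2 → ℝ => x 1 := measurable_pi_apply 1
  fin_cases k
  · exact (measurableSet_lt measurable_const m0).inter (measurableSet_lt measurable_const m1)
  · exact (measurableSet_lt m0 measurable_const).inter (measurableSet_lt m0.neg m1)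
  · exact (measurableSet_lt measurable_const m1).inter (measurableSet_lt m1 m0.neg)
  · exact (measurableSet_lt m0 measurable_const).inter (measurableSet_lt m1 measurable_const)
  · exact (measurableSet_lt measurable_const m0).inter (measurableSet_lt m1 m0.neg)
  · exact (measurableSet_lt m1 measurable_const).inter (measurableSet_lt m0.neg m1)

theorem sec_disj : Pairwise (Function.onFun Disjoint Sec) := by
  intro i j hij
  rw [Function.onFun, Set.disjoint_left]
  intro x hx hy
  fin_cases i <;> fin_cases j <;>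
    first
    | exact hij rfl
    | (simp only [Sec, mem_ofPred_eq] at hx hy
       obtain ⟨h1, h2⟩ := hx
       obtain ⟨h3, h4⟩ := hy
       linarith)

theorem hex (hQ : QUADStmt) : HEXStmt := by
  intro L hL hsym p q r m hp0 hp1 hq0 hq1 hr0 hr1 hm g1 g2 g3 g4 g5 g6
  have h0 : (0 : Fin 2 → ℝ) ∈ L := by
    have h := hL g4 (hsym _ g4) (by norm_num : (0 : ℝ) ≤ 1 / 2) (by norm_num : (0 : ℝ) ≤ 1 / 2)
      (by norm_num)
    have e : (0 : Fin 2 → ℝ) = (1 / 2 : ℝ) • ![m, 0] + (1 / 2 : ℝ) • -![m, 0] := by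
      rw [smul_neg, add_neg_cancel]
    rw [e]
    exact h
  have n1 := hsym _ g1
  have n2 := hsym _ g2
  have n3 := hsym _ g3
  have n4 := hsym _ g4
  have n5 := hsym _ g5
  have n6 := hsym _ g6
  simp only [Matrix.neg_cons, Matrix.neg_empty, neg_neg, neg_zero] at n1 n2 n3 n4 n5 n6
  have key : ∀ k, ENNReal.ofReal (m / 2) ≤ volume (Sec k ∩ L) := by
    intro k
    fin_cases k
    · refine sector hQ L hL h0 1 0 0 1 m r (1 - r) (by norm_num) _ ?_ hm hr0 (by linarith)
        (by ring) ?_ ?_ ?_
      · intro u v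
        simp [Sec]
      · simpa using g4
      · simpa using g5
      · simpa using g3
    · refine sector hQ L hL h0 0 (-1) 1 1 m (1 - q) q (by norm_num) _ ?_ hm (by linarith) hq0
        (by ring) ?_ ?_ ?_
      · intro u v
        simp [Sec, and_comm]
      · simpa using g5
      · simpa using g6
      · simpa using g2
    · refine sector hQ L hL h0 (-1) (-1) 1 0 m p (1 - p) (by norm_num) _ ?_ hm hp0 (by linarith)
        (by ring) ?_ ?_ ?_
      · intro u v
        simp [Sec]
      · simpa using g6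
      · simpa using n4
      · have e : (-1 : ℝ) * p + -1 * (1 - p) = -1 := by ring
        rw [e]
        simpa using n1
    · refine sector hQ L hL h0 (-1) 0 0 (-1) m r (1 - r) (by norm_num) _ ?_ hm hr0 (by linarith)
        (by ring) ?_ ?_ ?_
      · intro u v
        simp [Sec]
      · simpa using n4
      · simpa using n5
      · simpa using n3
    · refine sector hQ L hL h0 0 1 (-1) (-1) m (1 - q) q (by norm_num) _ ?_ hm (by linarith) hq0
        (by ring) ?_ ?_ ?_
      · intro u v
        simp [Sec]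
        constructor
        · rintro ⟨h1, h2⟩; exact ⟨by linarith, h1⟩
        · rintro ⟨h1, h2⟩; exact ⟨h2, by linarith⟩
      · simpa using n5
      · simpa using n6
      · have e : (-1 : ℝ) * (1 - q) + -1 * q = -1 := by ring
        rw [e]
        simpa using n2
    · refine sector hQ L hL h0 1 1 (-1) 0 m p (1 - p) (by norm_num) _ ?_ hm hp0 (by linarith)
        (by ring) ?_ ?_ ?_
      · intro u v
        simp [Sec]
      · simpa using n6
      · simpa using g4
      · simpa using g1
  calc ENNReal.ofReal (3 * m) = ∑ _k : Fin 6, ENNReal.ofReal (m / 2) := by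
        rw [← ENNReal.ofReal_sum_of_nonneg (fun _ _ => by positivity)]
        congr 1
        simp
        ring
    _ ≤ ∑ k : Fin 6, volume (Sec k ∩ L) := Finset.sum_le_sum fun k _ => key k
    _ = ∑ k : Fin 6, (volume.restrict L) (Sec k) :=
        Finset.sum_congr rfl fun k _ => (Measure.restrict_apply (sec_meas k)).symm
    _ = (volume.restrict L) (⋃ k, Sec k) := by
        rw [measure_iUnion sec_disj sec_meas, tsum_fintype]
    _ ≤ (volume.restrict L) univ := measure_mono (subset_univ _)
    _ = volume L := by rw [Measure.restrict_apply_univ]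

end Pool.Agent.Helper7.MK
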